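import Mathlib

/-!
LP (MP_4d57ea_nt), chapter I: the identity behind the level of distribution.

theta^3 = k, f(m) = m^3 + k = N(m + theta), alpha = a + b theta + c theta^2,
nrm = N(alpha), B = k c^2 - a b, C = b^2 - a c, D = b^3 - k c^3.

* b alpha - c theta alpha = -B + C theta, hence k C^3 - B^3 = nrm * D;
* c^3 nrm = D^2 + C (...), c B + D = b C.

If gcd(b,c) = 1 and gcd(C, nrm) = 1 then the root of f modulo nrm given by alpha is
m = -B/C mod nrm, and (two reciprocities)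
  e(-h m / nrm) = e(h c * inverse(a - a0) / D) * e(h B/(nrm C) + h c^2/(C D)),
a0 = b^2/c mod D.
-/

namespace Pool.H12.LP

/-- norm of a + b theta + c theta^2, theta^3 = k -/
def nrm (k a b c : ℤ) : ℤ := a ^ 3 + k * b ^ 3 + k ^ 2 * c ^ 3 - 3 * k * a * b * c

def BB (k a b c : ℤ) : ℤ := k * c ^ 2 - a * b

def CC (a b c : ℤ) : ℤ := b ^ 2 - a * c

def DD (k b c : ℤ) : ℤ := b ^ 3 - k * c ^ 3

/-- e(x) = exp(2 pi i x) -/
noncomputable def ee (x : ℝ) : ℂ := Complex.exp (2 * Real.pi * x * Complex.I)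

theorem ee_add (x y : ℝ) : ee (x + y) = ee x * ee y := by
  unfold ee
  rw [← Complex.exp_add]
  congr 1
  push_cast
  ring

theorem ee_int (n : ℤ) : ee (n : ℝ) = 1 := by
  unfold ee
  rw [Complex.exp_eq_one_iff]
  exact ⟨n, by push_cast; ring⟩

theorem norm_ee (x : ℝ) : ‖ee x‖ = 1 := by
  unfold ee
  rw [Complex.norm_exp]
  simp

/-- |e(x) - 1| <= 2 pi |x| -/
theorem norm_ee_sub_one_le (x : ℝ) : ‖ee x - 1‖ ≤ 2 * Real.pi * |x| := by
  unfold ee
  have h := Real.norm_exp_I_mul_ofReal_sub_one_le (x := 2 * Real.pi * x)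
  have e1 : (2 * (Real.pi : ℂ) * (x : ℂ) * Complex.I) =
      Complex.I * ((2 * Real.pi * x : ℝ) : ℂ) := by
    push_cast; ring
  rw [e1]
  refine h.trans ?_
  rw [Real.norm_eq_abs, abs_mul, abs_of_pos (by positivity : (0 : ℝ) < 2 * Real.pi)]

theorem kC_sub_B (k a b c : ℤ) :
    k * CC a b c ^ 3 - BB k a b c ^ 3 = nrm k a b c * DD k b c := by
  unfold CC BB nrm DD; ring

theorem cB_add_D (k a b c : ℤ) : c * BB k a b c + DD k b c = b * CC a b c := by
  unfold CC BB DD; ring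

theorem c3_nrm (k a b c : ℤ) :
    c ^ 3 * nrm k a b c = DD k b c ^ 2 +
      CC a b c * (3 * k * b * c ^ 3 - b ^ 4 - a * b ^ 2 * c - a ^ 2 * c ^ 2) := by
  unfold CC nrm DD; ring

/-- gcd(C,n) = 1 iff gcd(C,D) = 1 (gcd(b,c) = 1) -/
theorem coprime_iff {k a b c : ℤ} (hbc : IsCoprime b c) :
    IsCoprime (CC a b c) (nrm k a b c) ↔ IsCoprime (CC a b c) (DD k b c) := by
  have hcC : IsCoprime (CC a b c) c := by
    have h1 : IsCoprime (b ^ 2) c := hbc.pow_left
    have h2 : CC a b c = b ^ 2 + (-a) * c := by unfold CC; ring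
    rw [h2]
    exact IsCoprime.add_mul_right_left h1 (-a)
  have key := c3_nrm k a b c
  constructor
  · intro h
    have h1 : IsCoprime (CC a b c) (c ^ 3 * nrm k a b c) := IsCoprime.mul_right hcC.pow_right h
    rw [key] at h1
    have h2 : IsCoprime (CC a b c) (DD k b c ^ 2) := by
      have := IsCoprime.add_mul_left_right h1
        (-(3 * k * b * c ^ 3 - b ^ 4 - a * b ^ 2 * c - a ^ 2 * c ^ 2))
      have e : DD k b c ^ 2 = DD k b c ^ 2 +
          CC a b c * (3 * k * b * c ^ 3 - b ^ 4 - a * b ^ 2 * c - a ^ 2 * c ^ 2) +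
          CC a b c * (-(3 * k * b * c ^ 3 - b ^ 4 - a * b ^ 2 * c - a ^ 2 * c ^ 2)) := by ring
      rw [e]
      exact this
    exact (IsCoprime.pow_right_iff (by norm_num : 0 < 2)).mp h2
  · intro h
    have h1 : IsCoprime (CC a b c) (DD k b c ^ 2) := h.pow_right
    have h2 : IsCoprime (CC a b c) (c ^ 3 * nrm k a b c) := by
      rw [key]
      exact IsCoprime.add_mul_left_right h1 _
    exact IsCoprime.of_mul_right_right h2

theorem coprime_c_D {k b c : ℤ} (hbc : IsCoprime b c) : IsCoprime c (DD k b c) := by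
  have h1 : IsCoprime c (b ^ 3) := hbc.symm.pow_right
  have h2 : DD k b c = b ^ 3 + c * (-(k * c ^ 2)) := by unfold DD; ring
  rw [h2]
  exact IsCoprime.add_mul_left_right h1 _

/-- the root: C m = -B mod n gives n | m^3 + k -/
theorem root_dvd {k a b c m : ℤ} (hC : IsCoprime (CC a b c) (nrm k a b c))
    (hm : nrm k a b c ∣ CC a b c * m + BB k a b c) : nrm k a b c ∣ m ^ 3 + k := by
  have h1 : nrm k a b c ∣ CC a b c ^ 3 * (m ^ 3 + k) := by
    obtain ⟨j, hj⟩ := hm
    have key := kC_sub_B k a b c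
    refine ⟨DD k b c + j * ((CC a b c * m) ^ 2 - CC a b c * m * BB k a b c + BB k a b c ^ 2), ?_⟩
    linear_combination key + ((CC a b c * m) ^ 2 - CC a b c * m * BB k a b c + BB k a b c ^ 2) * hj
  exact (hC.symm.pow_right : IsCoprime (nrm k a b c) (CC a b c ^ 3)).dvd_of_dvd_mul_left h1

/-- THEOREM I. -/
theorem main_identity {k a b c h m C' : ℤ} (hbc : IsCoprime b c)
    (hC : IsCoprime (CC a b c) (nrm k a b c)) (hC0 : CC a b c ≠ 0) (hn0 : nrm k a b c ≠ 0)
    (hD0 : DD k b c ≠ 0)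
    (hm : nrm k a b c ∣ CC a b c * m + BB k a b c)
    (hC' : DD k b c ∣ CC a b c * C' - 1) :
    ee (-(h : ℝ) * m / nrm k a b c) =
      ee (-(h : ℝ) * c ^ 2 * C' / DD k b c) *
        ee (h * BB k a b c / (nrm k a b c * CC a b c) + h * c ^ 2 / (CC a b c * DD k b c)) := by
  obtain ⟨j, hj⟩ := hm
  have hCD : IsCoprime (CC a b c) (DD k b c) := (coprime_iff hbc).mp hC
  -- D j = - c^2 mod C
  have key := c3_nrm k a b c
  have key2 := cB_add_D k a b c
  set C := CC a b c with hCdef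
  set n := nrm k a b c with hndef
  set D := DD k b c with hDdef
  set B := BB k a b c with hBdef
  set R := (3 * k * b * c ^ 3 - b ^ 4 - a * b ^ 2 * c - a ^ 2 * c ^ 2) with hR
  have h1 : C ∣ D * (D * j + c ^ 2) := by
    refine ⟨c ^ 3 * m - R * j + c ^ 2 * b, ?_⟩
    -- D^2 j = c^3 n j - C R j = c^3 (C m + B) - C R j
    linear_combination (-j) * key - c ^ 3 * hj + c ^ 2 * key2
  have h2 : C ∣ D * j + c ^ 2 := hCD.dvd_of_dvd_mul_left h1
  obtain ⟨w, hw⟩ := h2
  -- w = c^2 C' mod D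
  have h3 : D ∣ w - c ^ 2 * C' := by
    obtain ⟨t, ht⟩ := hC'
    have h4 : D ∣ C * (w - c ^ 2 * C') := by
      refine ⟨j - c ^ 2 * t, ?_⟩
      linear_combination (-1 : ℤ) * hw - c ^ 2 * ht
    exact hCD.symm.dvd_of_dvd_mul_left h4
  obtain ⟨t, ht⟩ := h3
  have hCr : (C : ℝ) ≠ 0 := by exact_mod_cast hC0
  have hnr : (n : ℝ) ≠ 0 := by exact_mod_cast hn0
  have hDr : (D : ℝ) ≠ 0 := by exact_mod_cast hD0
  have hjr : (C : ℝ) * m + B = n * j := by exact_mod_cast hj
  have hwr : (D : ℝ) * j + c ^ 2 = C * w := by exact_mod_cast hw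
  have htr : (w : ℝ) - c ^ 2 * C' = D * t := by exact_mod_cast ht
  have e1 : -(h : ℝ) * m / n = (-(h : ℝ) * c ^ 2 * C' / D +
      (h * B / (n * C) + h * c ^ 2 / (C * D))) + ((-(h * t) : ℤ) : ℝ) := by
    have hm' : (m : ℝ) = (n * j - B) / C := by
      rw [eq_div_iff hCr]; linear_combination hjr
    have hj' : (j : ℝ) = (C * w - c ^ 2) / D := by
      rw [eq_div_iff hDr]; linear_combination hwr
    have hw' : (w : ℝ) = c ^ 2 * C' + D * t := by linear_combination htr
    rw [hm', hj', hw']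
    push_cast
    field_simp
    ring
  rw [e1, ee_add, ee_int, mul_one, ee_add]

end Pool.H12.LP
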